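import Pool.Agent.Helper16.NR.Stmts

/-! # CNT: from pairs to curves -/

set_option autoImplicit false

namespace Pool.Helper16.NR

theorem cnt_red (n : ℕ) : ∀ A B : ℤ, B ≠ 0 → B.natAbs ≤ n → ∃ (u : ℕ) (a b : ℤ), 1 ≤ u ∧
    A = a * (u : ℤ) ^ 4 ∧ B = b * (u : ℤ) ^ 6 ∧
    ∀ l : ℕ, l.Prime → ¬ ((l : ℤ) ^ 4 ∣ a ∧ (l : ℤ) ^ 6 ∣ b) := by
  induction n with
  | zero =>
    intro A B hB h
    exact absurd (Int.natAbs_eq_zero.mp (by omega)) hB
  | succ n ih =>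
    intro A B hB h
    by_cases hp : ∃ l : ℕ, l.Prime ∧ (l : ℤ) ^ 4 ∣ A ∧ (l : ℤ) ^ 6 ∣ B
    · obtain ⟨l, hl, ⟨A', hA⟩, ⟨B', hB'⟩⟩ := hp
      have hB0 : B' ≠ 0 := by
        rintro rfl
        rw [mul_zero] at hB'
        exact hB hB'
      have hl2 := hl.two_le
      have hlt : B'.natAbs ≤ n := by
        have h0 : B.natAbs = l ^ 6 * B'.natAbs := by
          rw [hB', Int.natAbs_mul, Int.natAbs_pow, Int.natAbs_natCast]
        have h1 : 2 ^ 6 ≤ l ^ 6 := Nat.pow_le_pow_left hl2 6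
        have h2 : 1 ≤ B'.natAbs := Int.natAbs_pos.mpr hB0
        have h3 : 2 ^ 6 * B'.natAbs ≤ l ^ 6 * B'.natAbs := Nat.mul_le_mul_right _ h1
        omega
      obtain ⟨u, a, b, h1, h2, h3, h4⟩ := ih A' B' hB0 hlt
      refine ⟨l * u, a, b, Nat.mul_pos hl.pos h1, ?_, ?_, h4⟩
      · rw [hA, h2]; push_cast; ring
      · rw [hB', h3]; push_cast; ring
    · refine ⟨1, A, B, le_rfl, by simp, by simp, fun l hl hh => hp ⟨l, hl, hh.1, hh.2⟩⟩

theorem cnt_on1 (q : ℤ × ℤ × ℤ × ℤ) : q.2.2.1 ^ 2 = q.1 ^ 3 + cA q * q.1 + cB q := by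
  unfold cB
  ring

theorem cnt_on2 {I1 I2 P : Finset ℤ} {q : ℤ × ℤ × ℤ × ℤ} (hq : q ∈ GP I1 I2 P)
    (hne : q.1 - q.2.1 ≠ 0) : q.2.2.2 ^ 2 = q.2.1 ^ 3 + cA q * q.2.1 + cB q := by
  obtain ⟨c, hc⟩ := (Finset.mem_filter.mp hq).2
  have h1 : cA q = c - (q.1 ^ 2 + q.1 * q.2.1 + q.2.1 ^ 2) := by
    unfold cA
    rw [hc, Int.mul_ediv_cancel_left _ hne]
  unfold cB
  rw [h1]
  linear_combination -hc

theorem cnt_mem {I1 I2 P : Finset ℤ} {q : ℤ × ℤ × ℤ × ℤ} (hq : q ∈ GP I1 I2 P) :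
    q.1 ∈ I1 ∧ q.2.1 ∈ I2 ∧ q.2.2.1 ∈ P ∧ q.2.2.2 ∈ P := by
  have h := (Finset.mem_filter.mp hq).1
  simpa [Finset.mem_product] using h

/-- the points of the curve of `q` in the box -/
noncomputable def cnt_pts (X : ℕ) (P : Finset ℤ) (q : ℤ × ℤ × ℤ × ℤ) : Finset (ℤ × ℤ) :=
  (Finset.Icc 1 (X : ℤ) ×ˢ P).filter (fun p => p.2 ^ 2 = p.1 ^ 3 + cA q * p.1 + cB q)

theorem cnt_mem_pts {X : ℕ} {P : Finset ℤ} {q : ℤ × ℤ × ℤ × ℤ} {p : ℤ × ℤ} :
    p ∈ cnt_pts X P q ↔ (0 < p.1 ∧ p.1 ≤ (X : ℤ) ∧ p.2 ∈ P) ∧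
      p.2 ^ 2 = p.1 ^ 3 + cA q * p.1 + cB q := by
  unfold cnt_pts
  rw [Finset.mem_filter, Finset.mem_product, Finset.mem_Icc]
  constructor
  · rintro ⟨⟨⟨h1, h2⟩, h3⟩, h4⟩
    exact ⟨⟨by omega, h2, h3⟩, h4⟩
  · rintro ⟨⟨h1, h2, h3⟩, h4⟩
    exact ⟨⟨⟨by omega, h2⟩, h3⟩, h4⟩

theorem cnt_pos {X Y : ℕ} {P : Finset ℤ} (h : PH X Y P) {y : ℤ} (hy : y ∈ P) :
    (X : ℤ) < y ∧ 0 < y := by
  have h1 := h.lo y hy
  have h2 := h.hX
  have h3 := h.hXY
  omega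

theorem cnt_sq {x y : ℤ} (hx : 0 < x) (hy : 0 < y) (h : x ^ 2 = y ^ 2) : x = y := by
  nlinarith [sq_nonneg (x - y), mul_pos hx hy]

theorem cnt_B {X Y : ℕ} {P I1 I2 : Finset ℤ} (h : PH X Y P)
    (h1 : ∀ x ∈ I1, 0 < x ∧ x ≤ (X : ℤ)) (h2 : ∀ x ∈ I2, 0 < x ∧ x ≤ (X : ℤ))
    (h3 : ∀ x ∈ I1, ∀ y ∈ I2, (X : ℤ) < 2 * (x - y) ∧ x - y ≤ (X : ℤ))
    {q : ℤ × ℤ × ℤ × ℤ} (hq : q ∈ GP I1 I2 P) : cB q ≠ 0 := by
  intro hB
  obtain ⟨m1, m2, m3, _⟩ := cnt_mem hq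
  have e := cnt_on1 q
  rw [hB] at e
  have hd : q.1 ∣ q.2.2.1 ^ 2 := ⟨q.1 ^ 2 + cA q, by rw [e]; ring⟩
  have hx := h1 _ m1
  have hx2 := h2 _ m2
  have hx3 := h3 _ m1 _ m2
  have hX := h.hX
  have hp := h.pr _ m3
  obtain ⟨hy, hy0⟩ := cnt_pos h m3
  obtain ⟨j, hj, hj2⟩ := (dvd_prime_pow hp 2).mp hd
  have hx0 : 0 ≤ q.1 := hx.1.le
  have hass : q.1 = q.2.2.1 ^ j := by
    have := Int.natAbs_eq_natAbs_iff.mp (Int.associated_iff_natAbs.mp hj2)
    rcases this with h' | h'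
    · exact h'
    · have : 0 ≤ q.2.2.1 ^ j := pow_nonneg hy0.le j
      omega
  rcases Nat.eq_zero_or_pos j with rfl | hj0
  · rw [pow_zero] at hass
    omega
  · have : q.2.2.1 ^ 1 ≤ q.2.2.1 ^ j := pow_le_pow_right₀ (by omega) hj0
    rw [pow_one] at this
    omega

/-- fibres of `(A, B)` -/
theorem cnt_fib {X : ℕ} {P I1 I2 : Finset ℤ}
    (h1 : ∀ x ∈ I1, 0 < x ∧ x ≤ (X : ℤ)) (h2 : ∀ x ∈ I2, 0 < x ∧ x ≤ (X : ℤ))
    (h3 : ∀ x ∈ I1, ∀ y ∈ I2, (X : ℤ) < 2 * (x - y) ∧ x - y ≤ (X : ℤ)) (K : ℕ)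
    (S : Finset (ℤ × ℤ × ℤ × ℤ)) (hS : S ⊆ GP I1 I2 P)
    (hK : ∀ q ∈ S, (cnt_pts X P q).card ≤ K)
    (hAB : ∀ q ∈ S, ∀ q' ∈ S, cA q = cA q' ∧ cB q = cB q') : S.card ≤ K ^ 2 := by
  rcases S.eq_empty_or_nonempty with rfl | ⟨q0, hq0⟩
  · simp
  have hcard : S.card ≤ (cnt_pts X P q0 ×ˢ cnt_pts X P q0).card := by
    apply Finset.card_le_card_of_injOn (fun q => ((q.1, q.2.2.1), (q.2.1, q.2.2.2)))
    · intro q hq
      have hq' := hS hq
      obtain ⟨m1, m2, m3, m4⟩ := cnt_mem hq'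
      obtain ⟨eA, eB⟩ := hAB q hq q0 hq0
      have hne : q.1 - q.2.1 ≠ 0 := by
        have := h3 _ m1 _ m2
        omega
      simp only [Finset.coe_product, Set.mem_prod, Finset.mem_coe, cnt_mem_pts]
      refine ⟨⟨⟨(h1 _ m1).1, (h1 _ m1).2, m3⟩, ?_⟩, ⟨⟨(h2 _ m2).1, (h2 _ m2).2, m4⟩, ?_⟩⟩
      · rw [← eA, ← eB]; exact cnt_on1 q
      · rw [← eA, ← eB]; exact cnt_on2 hq' hne
    · rintro ⟨a, b, c, d⟩ _ ⟨a', b', c', d'⟩ _ he
      simp only [Prod.mk.injEq] at he ⊢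
      obtain ⟨⟨e1, e2⟩, e3, e4⟩ := he
      exact ⟨e1, e3, e2, e4⟩
  rw [Finset.card_product] at hcard
  have := hK q0 hq0
  calc S.card ≤ _ := hcard
    _ ≤ K * K := Nat.mul_le_mul this this
    _ = K ^ 2 := by ring

/-- the triples -/
theorem cnt_tri {X Y : ℕ} {P I1 I2 : Finset ℤ} (h : PH X Y P)
    (h1 : ∀ x ∈ I1, 0 < x ∧ x ≤ (X : ℤ)) (h2 : ∀ x ∈ I2, 0 < x ∧ x ≤ (X : ℤ))
    (h3 : ∀ x ∈ I1, ∀ y ∈ I2, (X : ℤ) < 2 * (x - y) ∧ x - y ≤ (X : ℤ)) (M0 : ℝ)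
    (hM : ∀ q ∈ GP I1 I2 P, |(cA q : ℝ)| ≤ M0) (hT : (Tri X P M0).Finite) :
    ∑ q ∈ GP I1 I2 P, (cnt_pts X P q).card ≤
      2 * (GP I1 I2 P).card + (Tri X P M0).ncard := by
  have key : ∀ q ∈ GP I1 I2 P, (cnt_pts X P q).card ≤
      2 + ((cnt_pts X P q).filter (fun p => p.1 ≠ q.1 ∧ p.1 ≠ q.2.1)).card := by
    intro q hq
    obtain ⟨m1, m2, m3, m4⟩ := cnt_mem hq
    have hne : q.1 - q.2.1 ≠ 0 := by
      have := h3 _ m1 _ m2
      omega
    have hsub : cnt_pts X P q ⊆ insert (q.1, q.2.2.1) (insert (q.2.1, q.2.2.2)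
        ((cnt_pts X P q).filter (fun p => p.1 ≠ q.1 ∧ p.1 ≠ q.2.1))) := by
      intro p hp
      have hp' := cnt_mem_pts.mp hp
      have hp0 := (cnt_pos h hp'.1.2.2).2
      rw [Finset.mem_insert, Finset.mem_insert, Finset.mem_filter]
      by_cases c1 : p.1 = q.1
      · left
        have e := hp'.2
        rw [c1, ← cnt_on1 q] at e
        exact Prod.ext c1 (cnt_sq hp0 (cnt_pos h m3).2 e)
      · right
        by_cases c2 : p.1 = q.2.1
        · left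
          have e := hp'.2
          rw [c2, ← cnt_on2 hq hne] at e
          exact Prod.ext c2 (cnt_sq hp0 (cnt_pos h m4).2 e)
        · right
          exact ⟨hp, c1, c2⟩
    refine (Finset.card_le_card hsub).trans ?_
    refine (Finset.card_insert_le _ _).trans ?_
    have := Finset.card_insert_le (q.2.1, q.2.2.2)
      ((cnt_pts X P q).filter (fun p => p.1 ≠ q.1 ∧ p.1 ≠ q.2.1))
    omega
  have key2 : ((GP I1 I2 P).sigma
      (fun q => (cnt_pts X P q).filter (fun p => p.1 ≠ q.1 ∧ p.1 ≠ q.2.1))).card ≤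
      (Tri X P M0).ncard := by
    rw [Set.ncard_eq_toFinset_card _ hT]
    apply Finset.card_le_card_of_injOn
      (fun t => (![(t.1.1, t.1.2.2.1), (t.1.2.1, t.1.2.2.2), t.2] : Fin 3 → ℤ × ℤ))
    · rintro ⟨q, p⟩ ht
      simp only [Finset.coe_sigma, Set.mem_sigma_iff, Finset.mem_coe, Finset.mem_filter] at ht
      obtain ⟨hq, hp, c1, c2⟩ := ht
      obtain ⟨m1, m2, m3, m4⟩ := cnt_mem hq
      have hd := h3 _ m1 _ m2
      have hne : q.1 - q.2.1 ≠ 0 := by omega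
      have hp' := cnt_mem_pts.mp hp
      simp only [Set.Finite.coe_toFinset]
      refine ⟨?_, ?_, hd.1, cA q, cB q, hM q hq, ?_⟩
      · intro i
        fin_cases i
        · exact ⟨(h1 _ m1).1, (h1 _ m1).2, m3⟩
        · exact ⟨(h2 _ m2).1, (h2 _ m2).2, m4⟩
        · exact hp'.1
      · intro i j hij
        fin_cases i <;> fin_cases j
        · exact absurd rfl hij
        · show q.1 ≠ q.2.1
          omega
        · exact fun e => c1 e.symm
        · show q.2.1 ≠ q.1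
          omega
        · exact absurd rfl hij
        · exact fun e => c2 e.symm
        · exact c1
        · exact c2
        · exact absurd rfl hij
      · intro i
        fin_cases i
        · exact cnt_on1 q
        · exact cnt_on2 hq hne
        · exact hp'.2
    · rintro ⟨⟨a, b, c, d⟩, p⟩ _ ⟨⟨a', b', c', d'⟩, p'⟩ _ he
      have e0 := congrFun he 0
      have e1 := congrFun he 1
      have e2 := congrFun he 2
      simp only [Matrix.cons_val_zero, Matrix.cons_val_one, Matrix.cons_val, Prod.mk.injEq]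
        at e0 e1 e2
      obtain ⟨rfl, rfl⟩ := e0
      obtain ⟨rfl, rfl⟩ := e1
      subst e2
      rfl
  rw [Finset.card_sigma] at key2
  have h4 := Finset.sum_le_sum key
  rw [Finset.sum_add_distrib, Finset.sum_const, smul_eq_mul] at h4
  omega

theorem st_CNT : ST_CNT := by
  intro X Y P I1 I2 h h1 h2 h3 M0 K z U hK hz hM hU hUY hT
  classical
  set G := GP I1 I2 P with hG
  have hex : ∀ q : ℤ × ℤ × ℤ × ℤ, ∃ (u : ℕ) (a b : ℤ), q ∈ G → (1 ≤ u ∧
      cA q = a * (u : ℤ) ^ 4 ∧ cB q = b * (u : ℤ) ^ 6 ∧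
      ∀ l : ℕ, l.Prime → ¬ ((l : ℤ) ^ 4 ∣ a ∧ (l : ℤ) ^ 6 ∣ b)) := by
    intro q
    by_cases hq : q ∈ G
    · obtain ⟨u, a, b, h'⟩ := cnt_red _ (cA q) (cB q) (cnt_B h h1 h2 h3 hq) le_rfl
      exact ⟨u, a, b, fun _ => h'⟩
    · exact ⟨0, 0, 0, fun h' => absurd h' hq⟩
  choose u a b hab using hex
  set G1 := G.filter (fun q => u q ≤ z ∧ (cnt_pts X P q).card ≤ K) with hG1
  refine ⟨G1.image (fun q => (a q, b q)), ?_, ?_⟩
  · intro p hp
    obtain ⟨q, hq, rfl⟩ := Finset.mem_image.mp hp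
    have hq' := (Finset.mem_filter.mp hq).1
    obtain ⟨e1, e2, e3, e4⟩ := hab q hq'
    exact ⟨e4, u q, e1, q, hq', e2, e3⟩
  -- the first part
  have p1 : G1.card ≤ (z * K ^ 2) * (G1.image (fun q => (a q, b q))).card := by
    apply Finset.card_le_mul_card_image
    intro r _
    set F := G1.filter (fun q => (a q, b q) = r) with hF
    have hFim : (F.image u).card ≤ z := by
      have hs : F.image u ⊆ Finset.Icc 1 z := by
        intro w hw
        obtain ⟨q, hq, rfl⟩ := Finset.mem_image.mp hw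
        have hq1 := (Finset.mem_filter.mp hq).1
        have hq2 := Finset.mem_filter.mp hq1
        rw [Finset.mem_Icc]
        exact ⟨(hab q hq2.1).1, hq2.2.1⟩
      have := Finset.card_le_card hs
      rw [Nat.card_Icc] at this
      omega
    have hF2 : F.card ≤ K ^ 2 * (F.image u).card := by
      apply Finset.card_le_mul_card_image
      intro w _
      have hmem : ∀ q ∈ F.filter (fun q => u q = w), q ∈ G ∧ (cnt_pts X P q).card ≤ K ∧
          cA q = r.1 * (w : ℤ) ^ 4 ∧ cB q = r.2 * (w : ℤ) ^ 6 := by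
        intro q hq
        obtain ⟨hq1, hq2⟩ := Finset.mem_filter.mp hq
        obtain ⟨hq3, hq4⟩ := Finset.mem_filter.mp hq1
        obtain ⟨hq5, hq6⟩ := Finset.mem_filter.mp hq3
        obtain ⟨_, e2, e3, _⟩ := hab q hq5
        rw [hq2] at e2 e3
        rw [← hq4]
        exact ⟨hq5, hq6.2, e2, e3⟩
      apply cnt_fib h1 h2 h3 K
      · intro q hq
        exact (hmem q hq).1
      · intro q hq
        exact (hmem q hq).2.1
      · intro q hq q' hq'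
        obtain ⟨_, _, e1, e2⟩ := hmem q hq
        obtain ⟨_, _, e3, e4⟩ := hmem q' hq'
        exact ⟨by rw [e1, e3], by rw [e2, e4]⟩
    calc F.card ≤ K ^ 2 * (F.image u).card := hF2
      _ ≤ K ^ 2 * z := Nat.mul_le_mul_left _ hFim
      _ = z * K ^ 2 := by ring
  -- the second part
  have p2 : K * (G.filter (fun q => K < (cnt_pts X P q).card)).card ≤
      2 * G.card + (Tri X P M0).ncard := by
    calc K * (G.filter (fun q => K < (cnt_pts X P q).card)).card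
        = ∑ q ∈ G.filter (fun q => K < (cnt_pts X P q).card), K := by
          rw [Finset.sum_const, smul_eq_mul, mul_comm]
      _ ≤ ∑ q ∈ G.filter (fun q => K < (cnt_pts X P q).card), (cnt_pts X P q).card :=
          Finset.sum_le_sum (fun q hq => (Finset.mem_filter.mp hq).2.le)
      _ ≤ ∑ q ∈ G, (cnt_pts X P q).card :=
          Finset.sum_le_sum_of_subset (Finset.filter_subset _ _)
      _ ≤ _ := cnt_tri h h1 h2 h3 M0 hM hT
  -- the third part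
  have p3 : (G.filter (fun q => z < u q)).card ≤ ∑ w ∈ Finset.Ioc z U,
      (G.filter (fun q => (w : ℤ) ^ 4 ∣ q.2.2.1 ^ 2 - q.1 ^ 3)).card := by
    refine le_trans (Finset.card_le_card ?_) Finset.card_biUnion_le
    intro q hq
    obtain ⟨hq1, hq2⟩ := Finset.mem_filter.mp hq
    obtain ⟨e1, e2, e3, _⟩ := hab q hq1
    rw [Finset.mem_biUnion]
    refine ⟨u q, ?_, ?_⟩
    · rw [Finset.mem_Ioc]
      refine ⟨hq2, ?_⟩
      have hB := cnt_B h h1 h2 h3 hq1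
      have hb : b q ≠ 0 := by
        intro hb
        rw [hb, zero_mul] at e3
        exact hB e3
      have hn : (cB q).natAbs = (b q).natAbs * u q ^ 6 := by
        rw [e3, Int.natAbs_mul, Int.natAbs_pow, Int.natAbs_natCast]
      have hb1 : 1 ≤ (b q).natAbs := Int.natAbs_pos.mpr hb
      have hle : (cB q).natAbs ≤ U ^ 6 := by
        have := hU q hq1
        exact_mod_cast this
      by_contra hcon
      have hlt : U ^ 6 < u q ^ 6 := Nat.pow_lt_pow_left (by omega) (by norm_num)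
      have : 1 * u q ^ 6 ≤ (b q).natAbs * u q ^ 6 := Nat.mul_le_mul_right _ hb1
      omega
    · rw [Finset.mem_filter]
      refine ⟨hq1, ?_⟩
      have e := cnt_on1 q
      refine ⟨a q * q.1 + b q * (u q : ℤ) ^ 2, ?_⟩
      rw [e, e2, e3]
      ring
  have p4 : G.card ≤ G1.card + (G.filter (fun q => K < (cnt_pts X P q).card)).card +
      (G.filter (fun q => z < u q)).card := by
    have hs : G ⊆ (G1 ∪ G.filter (fun q => K < (cnt_pts X P q).card)) ∪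
        G.filter (fun q => z < u q) := by
      intro q hq
      rw [Finset.mem_union, Finset.mem_union, Finset.mem_filter, Finset.mem_filter,
        Finset.mem_filter]
      by_cases c1 : z < u q
      · exact Or.inr ⟨hq, c1⟩
      · by_cases c2 : K < (cnt_pts X P q).card
        · exact Or.inl (Or.inr ⟨hq, c2⟩)
        · exact Or.inl (Or.inl ⟨hq, by omega, by omega⟩)
    refine (Finset.card_le_card hs).trans ((Finset.card_union_le _ _).trans ?_)
    have := Finset.card_union_le G1 (G.filter (fun q => K < (cnt_pts X P q).card))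
    omega
  have hK0 : (0 : ℝ) < K := by exact_mod_cast hK
  have q1 : (G1.card : ℝ) ≤ (z * K ^ 2) * (G1.image (fun q => (a q, b q))).card := by
    exact_mod_cast p1
  have q2 : ((G.filter (fun q => K < (cnt_pts X P q).card)).card : ℝ) ≤
      (2 * G.card + (Tri X P M0).ncard) / K := by
    rw [le_div_iff₀ hK0, mul_comm]
    exact_mod_cast p2
  have q3 : ((G.filter (fun q => z < u q)).card : ℝ) ≤ ∑ w ∈ Finset.Ioc z U,
      ((G.filter (fun q => (w : ℤ) ^ 4 ∣ q.2.2.1 ^ 2 - q.1 ^ 3)).card : ℝ) := by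
    exact_mod_cast p3
  have q4 : (G.card : ℝ) ≤ G1.card + (G.filter (fun q => K < (cnt_pts X P q).card)).card +
      (G.filter (fun q => z < u q)).card := by
    exact_mod_cast p4
  linarith

end Pool.Helper16.NR
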